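import Pool.Agent.H35.CM4B.ME2a

/-!
# CM4, row B1_ME2: the Mellin transform of the averaged theta function
-/

set_option autoImplicit false

open MeasureTheory Set Filter NumberField NumberField.InfinitePlace NumberField.Units
  NumberField.Units.dirichletUnitTheorem Pool.Agent.H65.CM4 Pool.Agent.H25.HK
  Pool.Agent.H61.CM4
open scoped Real ENNReal

namespace Pool.Agent.H35.CM4B

open scoped Classical in
theorem pf_ME2 (hIXD : T_IXD) (hTHT : T_THT) (hUI2 : T_UI2) (hCT2 : T_CT2) (hDC2 : T_DC2)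
    (hWP2 : T_WP2) (hFOR : T_FOR) (hGI2 : T_GI2) : T_ME2 := by
  intro k _ _ _ M x y s hM hy hs
  have hs0 : 0 < s.re := by linarith
  have hF1 := (hFOR k).1
  haveI : Countable (Ix M) := by
    have h1 := (hTHT k M x y 0 hM hy).1.countable_support
    have h2 : {u : V2 k | u ∈ M ∧ u ∈ Fo k}.Countable := by
      refine h1.mono fun u hu => ?_
      rw [Function.mem_support, if_pos hu.1]
      exact (Real.exp_pos _).ne'
    exact h2.to_subtype
  have hB := fun τ => lemB hTHT hFOR hCT2 hUI2 M x y hM hy τ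
  have hC := fun τ => lemC M x y τ _ (hB τ).2.1 (hB τ).2.2
  have hne : ∀ u : Ix M, u.1 ≠ 0 := fun u => hF1 _ u.2.2
  have hD := fun u : Ix M => lemD hGI2 x y hy u.1 (hne u) s hs0
  obtain ⟨hFm, -, hF0, hFt, -, -, -⟩ := Pool.Agent.H66.HK.fd k
  obtain ⟨Φ, hΦ⟩ : ∃ Φ : ℝ → ℝ, ∀ τ, Φ τ = ∫ z in Fd k, (th2 M x y (yc k τ z) - 1) :=
    ⟨_, fun _ => rfl⟩
  have hff : ∀ τ : ℝ, f2 M x y (Real.exp τ) - vF k = Φ τ := by
    intro τ
    rw [hΦ]
    have h1 := (hB τ).1
    have h2 : IntegrableOn (fun _ : logSpace k => (1 : ℝ)) (Fd k) :=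
      integrableOn_const hFt.ne
    have h3 : f2 M x y (Real.exp τ) = ∫ z in Fd k, ((th2 M x y (yc k τ z) - 1) + 1) := by
      rw [f2]
      simp only [Real.log_exp, sub_add_cancel]
    rw [h3, integral_add h1 h2, setIntegral_const, smul_eq_mul, mul_one, vF]
    ring
  -- the integral is finite
  obtain ⟨P, hPf, -, hPk, -, hP0, -⟩ := hWP2 k M x y hM hy
  have hmc : MellinConvergent (fun t => P.f t - P.f₀) ((2 * s.re : ℝ) : ℂ) := by
    refine (P.hasMellin ?_).1
    rw [hPk, Complex.ofReal_re]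
    linarith
  have hint := integrable_of_mellin _ _ hmc
  have hfin : ∫⁻ τ : ℝ, ENNReal.ofReal (Real.exp (2 * s.re * τ)) * ENNReal.ofReal (Φ τ) ≠ ∞ := by
    have h1 := hint.2
    have h2 : ∀ τ : ℝ, ‖Complex.exp (((2 * s.re : ℝ) : ℂ) * τ) * (P.f (Real.exp τ) - P.f₀)‖ₑ =
        ENNReal.ofReal (Real.exp (2 * s.re * τ)) * ENNReal.ofReal (Φ τ) := by
      intro τ
      have h3 : 0 ≤ Φ τ := by
        rw [hΦ]
        exact (hB τ).2.1
      rw [hPf, hP0, ← Complex.ofReal_sub, hff, ← ofReal_norm, norm_mul, Complex.norm_exp,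
        Complex.norm_real, Real.norm_of_nonneg h3, ENNReal.ofReal_mul (Real.exp_pos _).le]
      congr 3
      rw [← Complex.ofReal_mul, Complex.ofReal_re]
    rw [hasFiniteIntegral_iff_enorm] at h1
    refine ne_of_lt (lt_of_eq_of_lt ?_ h1)
    exact lintegral_congr fun τ => (h2 τ).symm
  have hw : (torsionOrder k : ℝ≥0∞) ≠ 0 := by exact_mod_cast torsionOrder_ne_zero k
  have hmeas : ∀ u : Ix M, Measurable (fun τ : ℝ => ENNReal.ofReal (Real.exp (2 * s.re * τ)) *
      ∫⁻ z : logSpace k, ENNReal.ofReal (Hh x y u.1 τ z)) := by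
    intro u
    refine Measurable.mul (by fun_prop) ?_
    exact Measurable.lintegral_prod_right'
      (f := fun p : ℝ × logSpace k => ENNReal.ofReal (Hh x y u.1 p.1 p.2))
      (ENNReal.measurable_ofReal.comp (continuous_Hh x y u.1).measurable)
  have hsum : ∑' u : Ix M, ENNReal.ofReal (cc (dg k) s.re * (qp x y u.1) ^ (-s.re)) ≠ ∞ := by
    have h1 : ∫⁻ τ : ℝ, ENNReal.ofReal (Real.exp (2 * s.re * τ)) * ENNReal.ofReal (Φ τ) =
        (torsionOrder k : ℝ≥0∞) *
          ∑' u : Ix M, ENNReal.ofReal (cc (dg k) s.re * (qp x y u.1) ^ (-s.re)) := by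
      calc ∫⁻ τ : ℝ, ENNReal.ofReal (Real.exp (2 * s.re * τ)) * ENNReal.ofReal (Φ τ)
          = ∫⁻ τ : ℝ, (torsionOrder k : ℝ≥0∞) * ∑' u : Ix M,
            ENNReal.ofReal (Real.exp (2 * s.re * τ)) *
              ∫⁻ z : logSpace k, ENNReal.ofReal (Hh x y u.1 τ z) := by
            refine lintegral_congr fun τ => ?_
            rw [hΦ, (hB τ).2.2, ENNReal.tsum_mul_left]
            ring
        _ = (torsionOrder k : ℝ≥0∞) * ∫⁻ τ : ℝ, ∑' u : Ix M,
            ENNReal.ofReal (Real.exp (2 * s.re * τ)) *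
              ∫⁻ z : logSpace k, ENNReal.ofReal (Hh x y u.1 τ z) :=
            lintegral_const_mul' _ _ (ENNReal.natCast_ne_top _)
        _ = (torsionOrder k : ℝ≥0∞) * ∑' u : Ix M, ∫⁻ τ : ℝ,
            ENNReal.ofReal (Real.exp (2 * s.re * τ)) *
              ∫⁻ z : logSpace k, ENNReal.ofReal (Hh x y u.1 τ z) := by
            rw [lintegral_tsum fun u => (hmeas u).aemeasurable]
        _ = _ := by
            congr 1
            exact tsum_congr fun u => (hD u).2.2.2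
    intro h2
    rw [h2, ENNReal.mul_top hw] at h1
    exact hfin h1
  have hqp : ∀ u : Ix M, 0 < qp x y u.1 := fun u => qp_pos' hy (hne u)
  have hS : Summable (fun u : Ix M => (qp x y u.1) ^ (-s.re)) := by
    have h1 := ENNReal.summable_toReal hsum
    have h2 : (fun u : Ix M => (ENNReal.ofReal (cc (dg k) s.re *
        (qp x y u.1) ^ (-s.re))).toReal) =
        fun u : Ix M => cc (dg k) s.re * (qp x y u.1) ^ (-s.re) := by
      funext u
      exact ENNReal.toReal_ofReal (mul_nonneg (cc_pos _ hs0).le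
        (Real.rpow_nonneg (hqp u).le _))
    rw [h2] at h1
    exact (summable_mul_left_iff (cc_pos _ hs0).ne').1 h1
  refine ⟨fun u hu => qp_pos' hy hu, ?_, ?_⟩
  · have h1 : (fun u : V2 k => if u ∈ M ∧ u ∈ Fo k then (qp x y u) ^ (-s.re) else 0) =
        Set.indicator {u : V2 k | u ∈ M ∧ u ∈ Fo k} (fun u => (qp x y u) ^ (-s.re)) := by
      funext u
      by_cases h : u ∈ M ∧ u ∈ Fo k
      · rw [if_pos h, Set.indicator_of_mem (s := {u : V2 k | u ∈ M ∧ u ∈ Fo k}) h]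
      · rw [if_neg h, Set.indicator_of_notMem (s := {u : V2 k | u ∈ M ∧ u ∈ Fo k}) h]
    rw [h1, ← summable_subtype_iff_indicator]
    exact hS
  · have hsumm : ∑' u : Ix M, ∫⁻ τ : ℝ, ‖Complex.exp (2 * s * τ) *
        ((∫ z : logSpace k, Hh x y u.1 τ z : ℝ) : ℂ)‖ₑ ≠ ∞ :=
      ne_top_of_le_ne_top hsum (ENNReal.tsum_le_tsum fun u => (hD u).2.2.1)
    have htor : (torsionOrder k : ℂ) = 2 := by
      obtain ⟨v⟩ : Nonempty (Pl k) := inferInstance
      rw [Pool.Agent.H29.LD.torsionOrder_eq (rv v)]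
      norm_num
    have hts : ∑' u : Ix M, ((qp x y u.1 : ℝ) : ℂ) ^ (-s) =
        ∑' u : V2 k, if u ∈ M ∧ u ∈ Fo k then ((qp x y u : ℝ) : ℂ) ^ (-s) else 0 := by
      have h1 : (fun u : V2 k => if u ∈ M ∧ u ∈ Fo k then ((qp x y u : ℝ) : ℂ) ^ (-s) else 0) =
          Set.indicator {u : V2 k | u ∈ M ∧ u ∈ Fo k}
            (fun u => ((qp x y u : ℝ) : ℂ) ^ (-s)) := by
        funext u
        by_cases h : u ∈ M ∧ u ∈ Fo k
        · rw [if_pos h, Set.indicator_of_mem (s := {u : V2 k | u ∈ M ∧ u ∈ Fo k}) h]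
        · rw [if_neg h, Set.indicator_of_notMem (s := {u : V2 k | u ∈ M ∧ u ∈ Fo k}) h]
      rw [h1]
      exact tsum_subtype {u : V2 k | u ∈ M ∧ u ∈ Fo k} (fun u => ((qp x y u : ℝ) : ℂ) ^ (-s))
    rw [Pool.Agent.H66.HK.mellin_exp]
    calc ∫ τ : ℝ, Complex.exp (2 * s * τ) * ((f2 M x y (Real.exp τ) - vF k : ℝ) : ℂ)
        = ∫ τ : ℝ, (torsionOrder k : ℂ) * ∑' u : Ix M, Complex.exp (2 * s * τ) *
            ((∫ z : logSpace k, Hh x y u.1 τ z : ℝ) : ℂ) := by
          refine integral_congr_ae (ae_of_all _ fun τ => ?_)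
          simp only
          rw [hff, hΦ, hC, tsum_mul_left]
          ring
      _ = (torsionOrder k : ℂ) * ∑' u : Ix M, ∫ τ : ℝ, Complex.exp (2 * s * τ) *
            ((∫ z : logSpace k, Hh x y u.1 τ z : ℝ) : ℂ) := by
          rw [integral_const_mul, integral_tsum (fun u => (hD u).1) hsumm]
      _ = _ := by
          rw [tsum_congr fun u => (hD u).2.1, tsum_mul_left, htor, hts]
          ring

end Pool.Agent.H35.CM4B
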