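import Pool.Agent.H61.CM4.TargetsB
import Pool.Agent.H66.HK.ME
import Pool.Agent.H66.HK.FD
import Pool.Agent.H41.HK.UN
import Pool.Agent.H87.HK.YC
import Pool.Agent.H29.LD.A2

/-!
# CM4, row B1_ME2: the Mellin transform of the averaged theta function, lemmas
-/

set_option autoImplicit false

open MeasureTheory Set Filter NumberField NumberField.InfinitePlace NumberField.Units
  NumberField.Units.dirichletUnitTheorem Pool.Agent.H65.CM4 Pool.Agent.H25.HK
  Pool.Agent.H61.CM4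
open scoped Real ENNReal

namespace Pool.Agent.H35.CM4B

theorem qr_pos' {x y a b : ℝ} (hy : 0 < y) (h : a ≠ 0 ∨ b ≠ 0) : 0 < qr x y a b := by
  unfold qr
  refine div_pos ?_ (by positivity)
  by_cases hb : b = 0
  · have ha : a ≠ 0 := by
      rcases h with h | h
      · exact h
      · exact absurd hb h
    rw [hb]
    have h1 : 0 < a ^ 2 := by positivity
    nlinarith
  · have h1 : 0 < (b * y) ^ 2 := by
      have := mul_ne_zero hb hy.ne'
      positivity
    nlinarith [sq_nonneg (a + b * x)]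

/-- integrability in the logarithmic variable -/
theorem integrable_of_mellin (F : ℝ → ℂ) (s : ℂ) (h : MellinConvergent F s) :
    Integrable (fun τ : ℝ => Complex.exp (s * τ) * F (Real.exp τ)) := by
  have h1 : Real.exp '' (univ : Set ℝ) = Ioi 0 := by
    rw [image_univ, Real.range_exp]
  rw [MellinConvergent, ← h1, integrableOn_image_iff_integrableOn_abs_deriv_smul
    MeasurableSet.univ (fun x _ => (Real.hasDerivAt_exp x).hasDerivWithinAt)
    Real.exp_injective.injOn, integrableOn_univ] at h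
  refine h.congr (ae_of_all _ fun τ => ?_)
  simp only [smul_eq_mul, Complex.real_smul]
  rw [abs_of_pos (Real.exp_pos τ), ← mul_assoc]
  congr 1
  rw [Complex.cpow_def_of_ne_zero (by exact_mod_cast (Real.exp_pos τ).ne'), Complex.ofReal_exp,
    ← Complex.ofReal_exp, ← Complex.ofReal_log (Real.exp_pos τ).le, Real.log_exp,
    Complex.ofReal_exp, ← Complex.exp_add]
  congr 1
  ring

variable {k : Type} [Field k] [NumberField k] [IsTotallyReal k]

theorem rv_ne' (v : Pl k) {u : V2 k} (hu : u ≠ 0) :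
    rv v (u.1 : k) ≠ 0 ∨ rv v (u.2 : k) ≠ 0 := by
  by_contra h
  push Not at h
  apply hu
  have h1 : (u.1 : k) = 0 := (map_eq_zero_iff _ (rv v).injective).1 h.1
  have h2 : (u.2 : k) = 0 := (map_eq_zero_iff _ (rv v).injective).1 h.2
  refine Prod.ext ?_ ?_
  · exact_mod_cast h1
  · exact_mod_cast h2

theorem qp_pos' {x y : Pl k → ℝ} (hy : ∀ v, 0 < y v) {u : V2 k} (hu : u ≠ 0) :
    0 < qp x y u :=
  Finset.prod_pos fun v _ => qr_pos' (hy v) (rv_ne' v hu)

/-- representatives in the lattice -/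
abbrev Ix (M : La k) : Type := {u : V2 k // u ∈ M ∧ u ∈ Fo k}

/-- the summand -/
noncomputable def Hh (x y : Pl k → ℝ) (u : V2 k) (τ : ℝ) (z : logSpace k) : ℝ :=
  Real.exp (-(2 * π) * qs x y (yc k τ z) u)

theorem Hh_pos (x y : Pl k → ℝ) (u : V2 k) (τ : ℝ) (z : logSpace k) : 0 < Hh x y u τ z :=
  Real.exp_pos _

theorem continuous_qs (x y : Pl k → ℝ) (u : V2 k) :
    Continuous (fun c : Pl k → ℝ => qs x y c u) := by
  unfold qs
  fun_prop

theorem continuous_yc : Continuous (fun p : ℝ × logSpace k => yc k p.1 p.2) :=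
  (Pool.Agent.H87.HK.yc_main k).2.2.2.2.1

theorem continuous_Hh (x y : Pl k → ℝ) (u : V2 k) :
    Continuous (fun p : ℝ × logSpace k => Hh x y u p.1 p.2) := by
  unfold Hh
  exact Real.continuous_exp.comp
    (continuous_const.mul ((continuous_qs x y u).comp continuous_yc))

theorem qs_zero (x y c : Pl k → ℝ) : qs x y c (0 : V2 k) = 0 := by
  unfold qs qr
  simp

section
open scoped Classical

/-- (A) the theta function minus the constant term -/
theorem lemA (hTHT : T_THT) (hFOR : T_FOR) (M : La k) (x y c : Pl k → ℝ) (hM : ix M ≠ 0)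
    (hy : ∀ v, 0 < y v) :
    HasSum (fun p : Ix M × (𝓞 k)ˣ =>
      Real.exp (-(2 * π) * qs x y c (((p.2 : 𝓞 k)) • (p.1 : V2 k)))) (th2 M x y c - 1) := by
  have h1 : HasSum (fun u : V2 k => if u ∈ M then Real.exp (-(2 * π) * qs x y c u) else 0)
      (th2 M x y c) := (hTHT k M x y c hM hy).1.hasSum
  have h2 : HasSum (fun u : V2 k => if u = 0 then (1 : ℝ) else 0) 1 := hasSum_ite_eq 0 1
  have h3 := h1.sub h2
  obtain ⟨hF1, hF2, hF3⟩ := hFOR k
  obtain ⟨g, hg⟩ : ∃ g : Ix M × (𝓞 k)ˣ → V2 k, g = fun p => ((p.2 : 𝓞 k)) • (p.1 : V2 k) :=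
    ⟨_, rfl⟩
  have hg' : ∀ p : Ix M × (𝓞 k)ˣ, p.2 • (p.1 : V2 k) = g p := by
    intro p
    rw [hF2, hg]
  have hne : ∀ p : Ix M × (𝓞 k)ˣ, g p ≠ 0 := by
    intro p hp
    rw [← hg' p, smul_eq_zero_iff_eq] at hp
    exact hF1 _ p.1.2.2 hp
  have hgM : ∀ p : Ix M × (𝓞 k)ˣ, g p ∈ M := by
    intro p
    rw [hg]
    exact M.smul_mem _ p.1.2.1
  have hinj : Function.Injective g := by
    intro p q hpq
    have e := (hF3 (g p) (hne p)).unique (y₁ := (p.2, (p.1 : V2 k))) (y₂ := (q.2, (q.1 : V2 k)))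
      ⟨p.1.2.2, hg' p⟩ ⟨q.1.2.2, (hg' q).trans hpq.symm⟩
    have e1 : p.2 = q.2 := congrArg Prod.fst e
    have e2 : (p.1 : V2 k) = q.1 := congrArg Prod.snd e
    exact Prod.ext (Subtype.ext e2) e1
  have h4 : ∀ u : V2 k, u ∉ Set.range g →
      ((if u ∈ M then Real.exp (-(2 * π) * qs x y c u) else 0) -
        if u = 0 then (1 : ℝ) else 0) = 0 := by
    intro u hu
    by_cases hu0 : u = 0
    · subst hu0
      rw [if_pos M.zero_mem, if_pos rfl, qs_zero]
      simp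
    · rw [if_neg hu0]
      have hnM : u ∉ M := by
        intro huM
        apply hu
        obtain ⟨⟨ε, u₀⟩, ⟨h5, h6⟩, -⟩ := hF3 u hu0
        have h6' : ε • u₀ = u := h6
        have h7 : u₀ ∈ M := by
          have h8 : u₀ = ((ε⁻¹ : (𝓞 k)ˣ) : 𝓞 k) • u := by
            rw [← hF2, ← h6', inv_smul_smul]
          rw [h8]
          exact M.smul_mem _ huM
        exact ⟨(⟨u₀, h7, h5⟩, ε), (hg' (⟨u₀, h7, h5⟩, ε)).symm.trans h6'⟩
      rw [if_neg hnM, sub_zero]
  have h5 := (hinj.hasSum_iff h4).2 h3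
  have h6 : (fun p : Ix M × (𝓞 k)ˣ =>
      Real.exp (-(2 * π) * qs x y c (((p.2 : 𝓞 k)) • (p.1 : V2 k)))) =
      (fun u : V2 k => (if u ∈ M then Real.exp (-(2 * π) * qs x y c u) else 0) -
        if u = 0 then (1 : ℝ) else 0) ∘ g := by
    funext p
    show _ = (if g p ∈ M then Real.exp (-(2 * π) * qs x y c (g p)) else 0) -
        if g p = 0 then (1 : ℝ) else 0
    rw [if_pos (hgM p), if_neg (hne p), sub_zero, hg]
  rw [h6]
  exact h5

/-- (B) the integral over the fundamental domain for fixed `τ` -/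
theorem lemB (hTHT : T_THT) (hFOR : T_FOR) (hCT : T_CT2) (hUI : T_UI2)
    (M : La k) (x y : Pl k → ℝ) (hM : ix M ≠ 0) (hy : ∀ v, 0 < y v) [Countable (Ix M)]
    (τ : ℝ) :
    IntegrableOn (fun z => th2 M x y (yc k τ z) - 1) (Fd k) ∧
    0 ≤ ∫ z in Fd k, (th2 M x y (yc k τ z) - 1) ∧
    ENNReal.ofReal (∫ z in Fd k, (th2 M x y (yc k τ z) - 1)) =
      (torsionOrder k : ℝ≥0∞) *
        ∑' u : Ix M, ∫⁻ z : logSpace k, ENNReal.ofReal (Hh x y u.1 τ z) := by
  obtain ⟨hFm, ⟨B, hB⟩, hF0, hFt, hFl, -, -⟩ := Pool.Agent.H66.HK.fd k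
  have hcy : Continuous (fun z : logSpace k => yc k τ z) :=
    continuous_yc.comp (continuous_const.prodMk continuous_id)
  have hct : Continuous (fun z : logSpace k => th2 M x y (yc k τ z) - 1) :=
    ((hCT k M x y hy).comp hcy).sub continuous_const
  have hsub : Fd k ⊆ Metric.closedBall 0 (max B 0) := by
    intro z hz
    rw [mem_closedBall_zero_iff, pi_norm_le_iff_of_nonneg (le_max_right _ _)]
    intro w
    exact (hB z hz w).trans (le_max_left _ _)
  have hint : IntegrableOn (fun z => th2 M x y (yc k τ z) - 1) (Fd k) :=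
    (hct.continuousOn.integrableOn_compact (isCompact_closedBall _ _)).mono_set hsub
  have hA := fun z => lemA hTHT hFOR M x y (yc k τ z) hM hy
  have hnn : ∀ z, 0 ≤ th2 M x y (yc k τ z) - 1 :=
    fun z => (hA z).nonneg fun _ => (Real.exp_pos _).le
  refine ⟨hint, integral_nonneg hnn, ?_⟩
  rw [ofReal_integral_eq_lintegral_ofReal hint (ae_of_all _ hnn)]
  have hH : ∀ z, ENNReal.ofReal (th2 M x y (yc k τ z) - 1) =
      ∑' I : Ix M, (torsionOrder k : ℝ≥0∞) * ∑' l : unitLattice k,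
        ENNReal.ofReal (Hh x y I.1 τ (z + l)) := by
    intro z
    rw [← (hA z).tsum_eq, ENNReal.ofReal_tsum_of_nonneg (fun _ => (Real.exp_pos _).le)
      (hA z).summable, ENNReal.tsum_prod']
    refine tsum_congr fun I => ?_
    rw [← Pool.Agent.H41.HK.un k (fun l => ENNReal.ofReal (Hh x y I.1 τ (z + l)))]
    refine tsum_congr fun u => ?_
    rw [Hh, (hUI k x y τ z u).1]
  have hcH : ∀ I : Ix M, Continuous (fun z : logSpace k => Hh x y I.1 τ z) := fun I =>
    (continuous_Hh x y I.1).comp (continuous_const.prodMk continuous_id)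
  calc ∫⁻ z in Fd k, ENNReal.ofReal (th2 M x y (yc k τ z) - 1)
      = ∫⁻ z in Fd k, ∑' I : Ix M, (torsionOrder k : ℝ≥0∞) * ∑' l : unitLattice k,
        ENNReal.ofReal (Hh x y I.1 τ (z + l)) := by
        refine lintegral_congr fun z => hH z
    _ = ∑' I : Ix M, ∫⁻ z in Fd k, (torsionOrder k : ℝ≥0∞) * ∑' l : unitLattice k,
        ENNReal.ofReal (Hh x y I.1 τ (z + l)) := by
        refine lintegral_tsum fun I => ?_
        refine Measurable.aemeasurable ?_
        refine Measurable.const_mul (Measurable.tsum fun l => ?_) _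
        exact ENNReal.measurable_ofReal.comp
          ((hcH I).comp (continuous_id.add continuous_const)).measurable
    _ = ∑' I : Ix M, (torsionOrder k : ℝ≥0∞) *
        ∫⁻ z : logSpace k, ENNReal.ofReal (Hh x y I.1 τ z) := by
        refine tsum_congr fun I => ?_
        rw [lintegral_const_mul']
        · rw [hFl (fun z => ENNReal.ofReal (Hh x y I.1 τ z))
            (ENNReal.measurable_ofReal.comp (hcH I).measurable)]
        · exact ENNReal.natCast_ne_top _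
    _ = _ := ENNReal.tsum_mul_left

/-- (C) -/
theorem lemC (M : La k) (x y : Pl k → ℝ) (τ : ℝ) (Φ : ℝ) (hΦ : 0 ≤ Φ)
    (h : ENNReal.ofReal Φ = (torsionOrder k : ℝ≥0∞) *
      ∑' u : Ix M, ∫⁻ z : logSpace k, ENNReal.ofReal (Hh x y u.1 τ z)) :
    (Φ : ℂ) = (torsionOrder k : ℂ) *
      ∑' u : Ix M, ((∫ z : logSpace k, Hh x y u.1 τ z : ℝ) : ℂ) := by
  have hw : (torsionOrder k : ℝ≥0∞) ≠ 0 := by exact_mod_cast torsionOrder_ne_zero k
  have hfin : ∑' u : Ix M, ∫⁻ z : logSpace k, ENNReal.ofReal (Hh x y u.1 τ z) ≠ ∞ := by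
    intro h1
    rw [h1, ENNReal.mul_top hw] at h
    exact ENNReal.ofReal_ne_top h
  have hfin2 : ∀ u : Ix M, ∫⁻ z : logSpace k, ENNReal.ofReal (Hh x y u.1 τ z) ≠ ∞ :=
    fun u => ENNReal.ne_top_of_tsum_ne_top hfin u
  have hcH : ∀ u : Ix M, Continuous (fun z : logSpace k => Hh x y u.1 τ z) := fun u =>
    (continuous_Hh x y u.1).comp (continuous_const.prodMk continuous_id)
  have h2 : ∀ u : Ix M, ∫ z : logSpace k, Hh x y u.1 τ z =
      (∫⁻ z : logSpace k, ENNReal.ofReal (Hh x y u.1 τ z)).toReal := fun u =>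
    integral_eq_lintegral_of_nonneg_ae (ae_of_all _ fun z => (Hh_pos x y _ _ _).le)
      (hcH u).aestronglyMeasurable
  have h3 : Φ = (torsionOrder k : ℝ) * ∑' u : Ix M, ∫ z : logSpace k, Hh x y u.1 τ z := by
    rw [← ENNReal.toReal_ofReal hΦ, h, ENNReal.toReal_mul, ENNReal.tsum_toReal_eq hfin2]
    simp only [h2, ENNReal.toReal_natCast]
  rw [h3, Complex.ofReal_mul, Complex.ofReal_tsum, Complex.ofReal_natCast]

/-- the constant -/
noncomputable def cc (n : ℕ) (σ : ℝ) : ℝ :=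
  ((2 : ℝ) ^ n)⁻¹ * (Real.Gamma σ * (2 * π) ^ (-σ)) ^ n

theorem cc_pos (n : ℕ) {σ : ℝ} (hσ : 0 < σ) : 0 < cc n σ := by
  unfold cc
  have h1 := Real.Gamma_pos_of_pos hσ
  have h2 : 0 < (2 * π) ^ (-σ) := Real.rpow_pos_of_pos (by positivity) _
  positivity

/-- (D) -/
theorem lemD (hGI : T_GI2) (x y : Pl k → ℝ) (hy : ∀ v, 0 < y v) (u : V2 k) (hu : u ≠ 0)
    (s : ℂ) (hs : 0 < s.re) :
    AEStronglyMeasurable (fun τ : ℝ => Complex.exp (2 * s * τ) *
      ((∫ z : logSpace k, Hh x y u τ z : ℝ) : ℂ)) volume ∧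
    ∫ τ : ℝ, Complex.exp (2 * s * τ) * ((∫ z : logSpace k, Hh x y u τ z : ℝ) : ℂ) =
      ((2 : ℂ) ^ dg k)⁻¹ * (Complex.Gamma s * (2 * (π : ℂ)) ^ (-s)) ^ dg k *
        ((qp x y u : ℝ) : ℂ) ^ (-s) ∧
    ∫⁻ τ : ℝ, ‖Complex.exp (2 * s * τ) * ((∫ z : logSpace k, Hh x y u τ z : ℝ) : ℂ)‖ₑ ≤
      ENNReal.ofReal (cc (dg k) s.re * (qp x y u) ^ (-s.re)) ∧
    ∫⁻ τ : ℝ, ENNReal.ofReal (Real.exp (2 * s.re * τ)) *
      ∫⁻ z : logSpace k, ENNReal.ofReal (Hh x y u τ z) =
      ENNReal.ofReal (cc (dg k) s.re * (qp x y u) ^ (-s.re)) := by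
  have hq : ∀ v : Pl k, 0 < qr (x v) (y v) (rv v (u.1 : k)) (rv v (u.2 : k)) :=
    fun v => qr_pos' (hy v) (rv_ne' v hu)
  have hqp := qp_pos' hy hu (x := x)
  have hGI' : ∀ w : ℂ, 0 < w.re → Integrable (fun p : ℝ × logSpace k =>
      ((Hh x y u p.1 p.2 : ℝ) : ℂ) * Complex.exp (2 * w * p.1)) ∧
      ∫ p : ℝ × logSpace k, ((Hh x y u p.1 p.2 : ℝ) : ℂ) * Complex.exp (2 * w * p.1) =
      ((2 : ℂ) ^ dg k)⁻¹ * (Complex.Gamma w * (2 * (π : ℂ)) ^ (-w)) ^ dg k *
        ((qp x y u : ℝ) : ℂ) ^ (-w) := fun w hw => hGI k _ w hq hw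
  obtain ⟨h1, h2⟩ := hGI' s hs
  obtain ⟨h3, h4⟩ := hGI' (s.re : ℂ) (by simpa using hs)
  set G : ℝ × logSpace k → ℂ := fun p =>
    ((Hh x y u p.1 p.2 : ℝ) : ℂ) * Complex.exp (2 * s * p.1) with hG
  have hG' : ∀ p : ℝ × logSpace k, G p =
      ((Hh x y u p.1 p.2 : ℝ) : ℂ) * Complex.exp (2 * s * p.1) := fun p => rfl
  have hin : ∀ τ : ℝ, ∫ z : logSpace k, G (τ, z) =
      Complex.exp (2 * s * τ) * ((∫ z : logSpace k, Hh x y u τ z : ℝ) : ℂ) := by
    intro τ
    simp only [hG']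
    rw [integral_mul_const, mul_comm, integral_complex_ofReal]
  have hGn : ∀ p, ‖G p‖ = Hh x y u p.1 p.2 * Real.exp (2 * s.re * p.1) := by
    intro p
    rw [hG', norm_mul, Complex.norm_real, Complex.norm_exp,
      Real.norm_of_nonneg (Hh_pos x y u _ _).le]
    congr 2
    simp
  have hval : ∫ p : ℝ × logSpace k, ‖G p‖ = cc (dg k) s.re * (qp x y u) ^ (-s.re) := by
    have h6 : ∀ p : ℝ × logSpace k, ((Hh x y u p.1 p.2 : ℝ) : ℂ) *
        Complex.exp (2 * (s.re : ℂ) * p.1) = ((‖G p‖ : ℝ) : ℂ) := by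
      intro p
      rw [hGn]
      push_cast
      rfl
    simp only [h6] at h4
    rw [integral_complex_ofReal] at h4
    have h7 : (((∫ p : ℝ × logSpace k, ‖G p‖ : ℝ) : ℂ)) =
        ((cc (dg k) s.re * (qp x y u) ^ (-s.re) : ℝ) : ℂ) := by
      rw [h4]
      unfold cc
      rw [Complex.ofReal_mul, Complex.ofReal_mul, Complex.ofReal_inv, Complex.ofReal_pow,
        Complex.ofReal_pow, Complex.ofReal_mul, Complex.Gamma_ofReal,
        Complex.ofReal_cpow (by positivity : (0 : ℝ) ≤ 2 * π),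
        Complex.ofReal_cpow hqp.le]
      push_cast
      rfl
    exact_mod_cast h7
  have hlin : ∀ τ : ℝ, ∫⁻ z : logSpace k, ‖G (τ, z)‖ₑ =
      ENNReal.ofReal (Real.exp (2 * s.re * τ)) *
        ∫⁻ z : logSpace k, ENNReal.ofReal (Hh x y u τ z) := by
    intro τ
    rw [← lintegral_const_mul' _ _ ENNReal.ofReal_ne_top]
    refine lintegral_congr fun z => ?_
    rw [← ofReal_norm, hGn, mul_comm, ENNReal.ofReal_mul (Real.exp_pos _).le]
  have htot : ∫⁻ τ : ℝ, ∫⁻ z : logSpace k, ‖G (τ, z)‖ₑ =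
      ENNReal.ofReal (cc (dg k) s.re * (qp x y u) ^ (-s.re)) := by
    rw [← hval, ofReal_integral_norm_eq_lintegral_enorm h1, Measure.volume_eq_prod,
      lintegral_prod _ h1.1.enorm]
  refine ⟨?_, ?_, ?_, ?_⟩
  · have h5 := (h1.integral_prod_left).1
    refine h5.congr (ae_of_all _ fun τ => hin τ)
  · rw [← h2, Measure.volume_eq_prod, integral_prod _ h1]
    refine integral_congr_ae (ae_of_all _ fun τ => (hin τ).symm)
  · rw [← htot]
    refine lintegral_mono fun τ => ?_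
    rw [← hin τ]
    exact enorm_integral_le_lintegral_enorm _
  · rw [← htot]
    refine lintegral_congr fun τ => ?_
    rw [hlin τ]

end

end Pool.Agent.H35.CM4B
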